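import Pool.Agent.H3.SF.Targets
import Pool.Agent.H14.SQ.ORD

/-!
Row LGC of the board spw_modules: few numbers have many pairs.
-/

set_option autoImplicit false

namespace Pool.Agent.H50.SF

open Finset Filter Topology Pool.Agent.H3.SF Pool.Agent.H99.SQ

theorem pf_LGC (hCLK : T_CLK) (hTUP : T_TUP) (hSMZ : T_SMZ) : T_LGC := by
  intro x Z K W η A hη hZ hK hKZ hZL hWx hA
  classical
  set L := Nat.log 2 x with hL
  have hZR : (1 : ℝ) ≤ Z := by exact_mod_cast hZ
  have hLR : (Z : ℝ) ≤ L := by exact_mod_cast hZL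
  have hKR : (1 : ℝ) ≤ K := by exact_mod_cast hK
  set D : Finset ℕ := Finset.range (L + 1) with hD
  set G : Finset ℕ := (Finset.range (W + 1)).filter fun p => OP p ∧ ¬ mm p ∣ P0 Z 1 with hG
  set S : ℕ → Finset (ℕ × ℕ) := fun n => ((range (L + 1)) ×ˢ (range (W + 1))).filter fun q =>
    OP q.2 ∧ ¬ mm q.2 ∣ P0 Z 1 ∧ Kill q.2 n q.1 with hS
  have hNP : ∀ n, NP x W (P0 Z 1) n = (S n).card := by
    intro n
    unfold NP
    rw [hS]
  set m : ℕ := (L + 1) / (Z + 1) + 1 with hm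
  have hmR : (m : ℝ) ≤ 2 * L / Z := by
    have h1 : (((L + 1) / (Z + 1) : ℕ) : ℝ) ≤ ((L + 1 : ℕ) : ℝ) / ((Z + 1 : ℕ) : ℝ) :=
      Nat.cast_div_le
    have h2 : ((L + 1 : ℕ) : ℝ) / ((Z + 1 : ℕ) : ℝ) ≤ (L : ℝ) / Z := by
      push_cast
      rw [div_le_div_iff₀ (by positivity) (by positivity)]
      nlinarith
    have h3 : 1 ≤ (L : ℝ) / Z := (one_le_div (by positivity)).2 hLR
    have h4 : (2 : ℝ) * L / Z = (L : ℝ) / Z + (L : ℝ) / Z := by ring
    rw [hm, Nat.cast_add, Nat.cast_one, h4]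
    linarith
  have hmain := hTUP x 1 0 W Z K m (η * L) D G A S hZ one_pos (by rw [one_mul]; exact hWx) ?_ ?_
    ?_ ?_ ?_ ?_
  · rw [Nat.cast_one, div_one, hD, Finset.card_range] at hmain
    have hL0 : (0 : ℝ) < L := by linarith
    have hs : 0 < η * L / 2 := by positivity
    have h1 : (((L + 1 : ℕ) : ℝ)) ^ K ≤ (2 * (L : ℝ)) ^ K := by
      refine pow_le_pow_left₀ (by positivity) ?_ K
      push_cast
      linarith
    have h2 : (A.card : ℝ) * (η * L / 2) ^ K ≤ (2 * (L : ℝ)) ^ K * (2 * x) * (1 / Z) ^ K := by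
      refine hmain.trans ?_
      exact mul_le_mul_of_nonneg_right (mul_le_mul_of_nonneg_right h1 (by positivity))
        (by positivity)
    have h3 : (2 * (L : ℝ)) ^ K * (2 * x) * (1 / Z) ^ K =
        (2 * (4 / (η * Z)) ^ K * x) * (η * L / 2) ^ K := by
      have h4 : (2 * (L : ℝ)) * (1 / Z) = (4 / (η * Z)) * (η * L / 2) := by
        field_simp
        ring
      calc (2 * (L : ℝ)) ^ K * (2 * x) * (1 / Z) ^ K
          = ((2 * (L : ℝ)) * (1 / Z)) ^ K * (2 * x) := by rw [mul_pow]; ring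
        _ = ((4 / (η * Z)) * (η * L / 2)) ^ K * (2 * x) := by rw [h4]
        _ = _ := by rw [mul_pow]; ring
    rw [h3] at h2
    exact le_of_mul_le_mul_right h2 (by positivity)
  · intro p hp
    obtain ⟨a1, a2, a3⟩ := Finset.mem_filter.1 hp
    rw [Finset.mem_range] at a1
    exact ⟨a2, (hSMZ Z 1 (P0 Z 1) p le_rfl dvd_rfl a2 a3).1, by omega, Nat.coprime_one_left _⟩
  · intro n hn
    exact ⟨(hA n hn).1, Nat.modEq_one⟩
  · intro n _ q hq
    rw [hS] at hq
    obtain ⟨a1, a2, a3, a4⟩ := Finset.mem_filter.1 hq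
    rw [Finset.mem_product] at a1
    exact ⟨a1.1, Finset.mem_filter.2 ⟨a1.2, a2, a3⟩, a4⟩
  · intro n _ p
    by_cases hp : ((S n).filter fun q => q.2 = p) = ∅
    · rw [hp, Finset.card_empty]
      exact Nat.zero_le _
    · obtain ⟨q0, hq0⟩ := Finset.nonempty_iff_ne_empty.2 hp
      rw [hS, Finset.mem_filter, Finset.mem_filter] at hq0
      obtain ⟨⟨-, b2, b3, -⟩, b5⟩ := hq0
      rw [b5] at b2 b3
      have hZm := (hSMZ Z 1 (P0 Z 1) p le_rfl dvd_rfl b2 b3).2
      have h1 := hCLK p 1 0 n (L + 1) (((S n).filter fun q => q.2 = p).image Prod.fst) b2 one_pos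
        (by
          intro l hl
          obtain ⟨q, hq, rfl⟩ := Finset.mem_image.1 hl
          rw [hS, Finset.mem_filter, Finset.mem_filter, Finset.mem_product] at hq
          obtain ⟨⟨⟨c1, -⟩, -, -, c4⟩, c5⟩ := hq
          rw [c5] at c4
          exact ⟨Finset.mem_range.1 c1, Nat.modEq_one, c4⟩)
      rw [Finset.card_image_of_injOn, Nat.lcm_one_left] at h1
      · refine h1.trans ?_
        rw [hm]
        exact Nat.add_le_add_right (Nat.div_le_div_left (by omega) (by omega)) 1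
      · intro q hq q' hq' h
        rw [Finset.mem_coe, Finset.mem_filter] at hq hq'
        exact Prod.ext h (hq.2.trans hq'.2.symm)
  · intro n hn
    rw [← hNP]
    exact (hA n hn).2
  · have h1 : 2 * (K : ℝ) * m ≤ 2 * K * (2 * L / Z) :=
      mul_le_mul_of_nonneg_left hmR (by positivity)
    refine h1.trans ?_
    have h2 : 2 * (K : ℝ) * (2 * L / Z) = (4 * K) * (L / Z) := by ring
    rw [h2]
    have h3 : (4 * (K : ℝ)) * (L / Z) ≤ (η * Z) * (L / Z) :=
      mul_le_mul_of_nonneg_right hKZ (by positivity)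
    refine h3.trans (le_of_eq ?_)
    field_simp

end Pool.Agent.H50.SF
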