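import Pool.Agent.H3.SF.Targets
import Pool.Agent.H35.SQ.TL

/-!
Row SML of the board spw_modules: small numbers and numbers with a large prime.
-/

set_option autoImplicit false

namespace Pool.Agent.H50.SF

open Finset Filter Topology Pool.Agent.H3.SF Pool.Agent.H99.SQ

theorem pf_SML : T_SML := by
  intro x W A hx hW hA
  classical
  set A1 := A.filter fun n => 2 * Nat.log 2 n < Nat.log 2 x with hA1
  set A2 := A.filter fun n => ∃ l p, 2 ^ l < n ∧ p.Prime ∧ p ^ 2 ∣ n - 2 ^ l ∧ W < p with hA2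
  have hsub : A ⊆ A1 ∪ A2 := by
    intro n hn
    rw [Finset.mem_union]
    rcases (hA n hn).2 with h | h
    · exact Or.inl (Finset.mem_filter.2 ⟨hn, h⟩)
    · exact Or.inr (Finset.mem_filter.2 ⟨hn, h⟩)
  have h1 : (A1.card : ℝ) ≤ 4 * √(x : ℝ) := by
    have h2 : A1 ⊆ Finset.range (Nat.sqrt (2 * x) + 1) := by
      intro n hn
      have hn' := (Finset.mem_filter.1 hn).2
      rw [Finset.mem_range]
      refine Nat.lt_succ_of_le (Nat.le_sqrt.2 ?_)
      have h3 : n < 2 ^ (Nat.log 2 n + 1) := Nat.lt_pow_succ_log_self (by norm_num) n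
      have h4 : 2 ^ Nat.log 2 x ≤ x := Nat.pow_log_le_self 2 (by omega)
      calc n * n ≤ 2 ^ (Nat.log 2 n + 1) * 2 ^ (Nat.log 2 n + 1) :=
            Nat.mul_le_mul h3.le h3.le
        _ = 2 ^ (2 * Nat.log 2 n + 2) := by rw [← pow_add]; ring_nf
        _ ≤ 2 ^ (Nat.log 2 x + 1) := Nat.pow_le_pow_right (by norm_num) (by omega)
        _ = 2 * 2 ^ Nat.log 2 x := by rw [pow_succ]; ring
        _ ≤ 2 * x := Nat.mul_le_mul_left _ h4
    have h5 := Finset.card_le_card h2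
    rw [Finset.card_range] at h5
    have h6 : (A1.card : ℝ) ≤ (Nat.sqrt (2 * x) : ℝ) + 1 := by exact_mod_cast h5
    have h7 : (Nat.sqrt (2 * x) : ℝ) ≤ √((2 * x : ℕ) : ℝ) := Real.nat_sqrt_le_real_sqrt
    have hx1 : (1 : ℝ) ≤ x := by exact_mod_cast hx
    have h8 : √((2 * x : ℕ) : ℝ) ≤ 2 * √(x : ℝ) := by
      push_cast
      apply Real.sqrt_le_iff.2
      refine ⟨by positivity, ?_⟩
      rw [mul_pow, Real.sq_sqrt (by linarith)]
      linarith
    have h9 : 1 ≤ √(x : ℝ) := Real.one_le_sqrt.2 hx1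
    linarith
  have h2 : (A2.card : ℝ) ≤ (Nat.log 2 x + 1) * (x / W) := by
    have hch : ∀ n : ℕ, ∃ l : ℕ, n ∈ A2 → 2 ^ l < n ∧ ∃ p, W < p ∧ p ^ 2 ∣ n - 2 ^ l := by
      intro n
      by_cases hn : n ∈ A2
      · obtain ⟨l, p, a1, -, a3, a4⟩ := (Finset.mem_filter.1 hn).2
        exact ⟨l, fun _ => ⟨a1, p, a4, a3⟩⟩
      · exact ⟨0, fun h => absurd h hn⟩
    choose l hl using hch
    have h3 := Pool.Agent.H35.SQ.TL.pf_TL W x (A2.image fun n => (n, l n)) hW hx (by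
      intro q hq
      obtain ⟨n, hn, rfl⟩ := Finset.mem_image.1 hq
      obtain ⟨a1, a2⟩ := hl n hn
      exact ⟨(hA n (Finset.mem_filter.1 hn).1).1, a1, a2⟩)
    rwa [Finset.card_image_of_injective _ (fun a b h => congrArg Prod.fst h)] at h3
  have h3 : (A.card : ℝ) ≤ A1.card + A2.card := by
    exact_mod_cast (Finset.card_le_card hsub).trans (Finset.card_union_le _ _)
  linarith

end Pool.Agent.H50.SF
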