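import Pool.Agent.H3.SF.Targets
import Pool.Agent.H14.SQ.ORD

/-!
Rows SMO, SMZ of the board spw_modules: primes with small relative period are large.
-/

set_option autoImplicit false

namespace Pool.Agent.H50.SF

open Finset Filter Topology Pool.Agent.H3.SF Pool.Agent.H99.SQ

theorem dvd_lcmUpto {Z k : ℕ} (h1 : 1 ≤ k) (h2 : k ≤ Z) : k ∣ Nat.lcmUpto Z := by
  unfold Nat.lcmUpto
  exact Finset.dvd_lcm (f := id) (Finset.mem_Icc.2 ⟨h1, h2⟩)

theorem pf_SMZ : T_SMZ := by
  intro Z b P p hb hP hp hm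
  obtain ⟨hm0, -, hmd, -⟩ := Pool.Agent.H14.SQ.pf_ORD p hp
  have hp3 : 3 ≤ p := by
    have h1 := hp.1.two_le
    have h2 := hp.2
    omega
  constructor
  · by_contra hlt
    push Not at hlt
    apply hm
    have h1 : p ∣ Nat.lcmUpto Z := dvd_lcmUpto (by omega) hlt
    have h2 : p - 1 ∣ Nat.lcmUpto Z := dvd_lcmUpto (by omega) (by omega)
    have h3 : p * (p - 1) ∣ Nat.lcmUpto Z ^ (4 * b) := by
      refine (mul_dvd_mul h1 h2).trans ?_
      rw [← sq]
      exact pow_dvd_pow _ (by omega)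
    exact (hmd.trans h3).trans hP
  · by_contra hlt
    push Not at hlt
    apply hm
    have h1 : mm p ∣ Nat.lcmUpto Z := dvd_lcmUpto hm0 hlt
    have h2 : Nat.lcmUpto Z ∣ Nat.lcmUpto Z ^ (4 * b) := dvd_pow_self _ (by omega)
    exact (h1.trans h2).trans hP

theorem pf_SMO : T_SMO := by
  intro Z b P p hb hI hp hm hl
  obtain ⟨hP0, hPd, hPq⟩ := hI
  obtain ⟨hm0, -, hmd, -⟩ := Pool.Agent.H14.SQ.pf_ORD p hp
  set g := Nat.gcd P (mm p) with hg
  have hg0 : 0 < g := Nat.gcd_pos_of_pos_left _ hP0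
  obtain ⟨m', hm'⟩ : g ∣ mm p := Nat.gcd_dvd_right _ _
  have hgP : g ∣ P := Nat.gcd_dvd_left _ _
  have hlcm : Nat.lcm P (mm p) = P * m' := by
    have h1 := Nat.gcd_mul_lcm P (mm p)
    rw [← hg] at h1
    have h2 : g * Nat.lcm P (mm p) = g * (P * m') := by
      rw [h1]
      conv_lhs => rw [hm']
      ring
    exact Nat.eq_of_mul_eq_mul_left hg0 h2
  have hm'0 : 0 < m' := by
    rcases Nat.eq_zero_or_pos m' with h | h
    · rw [h, mul_zero] at hm'
      omega
    · exact h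
  have hm'Z : m' ≤ Z := by
    rw [hlcm, mul_comm Z P] at hl
    exact Nat.le_of_mul_le_mul_left hl hP0
  have hqZ : ∀ q : ℕ, q.Prime → q ∣ mm p → q ≤ Z := by
    intro q hq hqm
    rw [hm'] at hqm
    rcases (Nat.Prime.dvd_mul hq).1 hqm with h | h
    · exact hPq q hq (h.trans hgP)
    · exact (Nat.le_of_dvd hm'0 h).trans hm'Z
  obtain ⟨q, hq, hlt⟩ : ∃ q : ℕ, q.Prime ∧ P.factorization q < (mm p).factorization q := by
    by_contra hcon
    push Not at hcon
    exact hm ((Nat.factorization_prime_le_iff_dvd hm0.ne' hP0.ne').1 hcon)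
  have hqm : q ∣ mm p := Nat.dvd_of_factorization_pos (by omega)
  have hqZ' := hqZ q hq hqm
  have hq2 := hq.two_le
  set k := Nat.log q Z with hk
  have hk1 : 1 ≤ k := Nat.log_pos (by omega) hqZ'
  have hfac : 4 * b * k ≤ P.factorization q := by
    have h1 := (Nat.factorization_prime_le_iff_dvd (pow_ne_zero _ (Nat.lcmUpto_ne_zero Z))
      hP0.ne').2 hPd q hq
    rw [Nat.factorization_pow, Finsupp.smul_apply, Nat.factorization_lcmUpto Z hq,
      smul_eq_mul] at h1
    exact h1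
  have hmlow : q ^ (4 * b * k + 1) ≤ mm p := by
    have h1 : q ^ (mm p).factorization q ∣ mm p := Nat.ordProj_dvd _ _
    refine le_trans (Nat.pow_le_pow_right (by omega) (by omega)) (Nat.le_of_dvd hm0 h1)
  have hZk : Z < q ^ (k + 1) := Nat.lt_pow_succ_log_self (by omega) Z
  have hZ2 : Z ^ (2 * b) < q ^ (4 * b * k + 1) := by
    have h1 : Z ^ (2 * b) ≤ (q ^ (2 * k)) ^ (2 * b) := by
      refine Nat.pow_le_pow_left ?_ _
      exact hZk.le.trans (Nat.pow_le_pow_right (by omega) (by omega))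
    have h2 : (q ^ (2 * k)) ^ (2 * b) = q ^ (4 * b * k) := by
      rw [← pow_mul]
      ring_nf
    rw [h2] at h1
    exact lt_of_le_of_lt h1 (Nat.pow_lt_pow_right (by omega) (by omega))
  have hp2 : mm p < p ^ 2 := by
    have hp0 : 0 < p := hp.1.pos
    have h1 : mm p ≤ p * (p - 1) := Nat.le_of_dvd (Nat.mul_pos hp0 (by
      have := hp.1.two_le
      omega)) hmd
    refine lt_of_le_of_lt h1 ?_
    rw [sq]
    exact Nat.mul_lt_mul_of_pos_left (by omega) hp0
  constructor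
  · have h1 : (Z ^ b) ^ 2 < p ^ 2 := by
      rw [← pow_mul, mul_comm b 2]
      exact lt_of_lt_of_le hZ2 (hmlow.trans hp2.le)
    exact lt_of_pow_lt_pow_left₀ 2 (Nat.zero_le _) h1
  · refine ⟨Nat.lcm_pos hP0 hm0, hPd.trans (Nat.dvd_lcm_left _ _), ?_⟩
    intro r hr hrd
    rw [hlcm] at hrd
    rcases (Nat.Prime.dvd_mul hr).1 hrd with h | h
    · exact hPq r hr h
    · exact (Nat.le_of_dvd hm'0 h).trans hm'Z

end Pool.Agent.H50.SF
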