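import Pool.Agent.H3.SF.Targets

/-!
Rows TUL, TUU, TUP of the board spw_modules: counting with tuples.
-/

set_option autoImplicit false

namespace Pool.Agent.H50.SF

open Finset Filter Topology Pool.Agent.H3.SF Pool.Agent.H99.SQ

open Classical in
theorem tul_step (S : Finset (ℕ × ℕ)) (k m : ℕ)
    (hm : ∀ p, (S.filter fun q => q.2 = p).card ≤ m) :
    (((Fintype.piFinset fun _ : Fin k => S).filter fun f =>
      Function.Injective fun i => (f i).2).card) * (S.card - k * m) ≤
    (((Fintype.piFinset fun _ : Fin (k + 1) => S).filter fun f =>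
      Function.Injective fun i => (f i).2).card) := by
  set E := (Fintype.piFinset fun _ : Fin k => S).filter fun f =>
      Function.Injective fun i => (f i).2 with hE
  set F : (Fin k → ℕ × ℕ) → Finset (ℕ × ℕ) := fun f => S.filter fun q => ∀ i, (f i).2 ≠ q.2
    with hF
  have h1 : ∀ f ∈ E, S.card - k * m ≤ (F f).card := by
    intro f _
    have hsub : S ⊆ F f ∪ (Finset.univ : Finset (Fin k)).biUnion
        (fun i => S.filter fun q => q.2 = (f i).2) := by
      intro q hq
      rw [Finset.mem_union]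
      by_cases h : ∀ i, (f i).2 ≠ q.2
      · exact Or.inl (Finset.mem_filter.2 ⟨hq, h⟩)
      · push Not at h
        obtain ⟨i, hi⟩ := h
        exact Or.inr (Finset.mem_biUnion.2 ⟨i, Finset.mem_univ _,
          Finset.mem_filter.2 ⟨hq, hi.symm⟩⟩)
    have h2 := (Finset.card_le_card hsub).trans (Finset.card_union_le _ _)
    have h3 : ((Finset.univ : Finset (Fin k)).biUnion
        (fun i => S.filter fun q => q.2 = (f i).2)).card ≤ k * m := by
      refine Finset.card_biUnion_le.trans ?_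
      refine (Finset.sum_le_card_nsmul _ _ m (fun i _ => hm _)).trans ?_
      rw [Finset.card_univ, Fintype.card_fin, smul_eq_mul]
    omega
  have h4 : E.card * (S.card - k * m) ≤ (E.sigma F).card := by
    rw [Finset.card_sigma]
    have := Finset.card_nsmul_le_sum E (fun f => (F f).card) (S.card - k * m) h1
    rwa [smul_eq_mul] at this
  refine h4.trans ?_
  refine Finset.card_le_card_of_injOn
    (fun x : (_ : Fin k → ℕ × ℕ) × (ℕ × ℕ) => (Fin.cons x.2 x.1 : Fin (k + 1) → ℕ × ℕ)) ?_ ?_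
  · rintro ⟨f, q⟩ hx
    rw [Finset.mem_coe, Finset.mem_sigma, hE, hF] at hx
    simp only [Finset.mem_filter, Fintype.mem_piFinset] at hx
    obtain ⟨⟨hf1, hf2⟩, hq1, hq2⟩ := hx
    rw [Finset.mem_coe, Finset.mem_filter, Fintype.mem_piFinset]
    constructor
    · intro i
      refine Fin.cases ?_ (fun j => ?_) i
      · exact hq1
      · exact hf1 j
    · have e : (fun i : Fin (k + 1) => ((Fin.cons q f : Fin (k + 1) → ℕ × ℕ) i).2) =
          (Fin.cons q.2 (fun i => (f i).2) : Fin (k + 1) → ℕ) := by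
        funext i
        refine Fin.cases ?_ (fun j => ?_) i
        · rw [Fin.cons_zero, Fin.cons_zero]
        · rw [Fin.cons_succ, Fin.cons_succ]
      change Function.Injective (fun i : Fin (k + 1) =>
        ((Fin.cons q f : Fin (k + 1) → ℕ × ℕ) i).2)
      rw [e, Fin.cons_injective_iff]
      refine ⟨?_, hf2⟩
      rintro ⟨i, hi⟩
      exact hq2 i hi
  · rintro ⟨f, q⟩ _ ⟨f', q'⟩ _ h
    have h5 := Fin.cons_injective2 (α := fun _ : Fin (k + 1) => ℕ × ℕ) h
    obtain ⟨h6, h7⟩ := h5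
    simp only at h6 h7
    rw [h6, h7]

theorem pf_TUL : T_TUL := by
  intro S K m s hm hs1 hs2
  classical
  have hs0 : 0 ≤ s := le_trans (by positivity) hs1
  have key : ∀ k : ℕ, k ≤ K → (s / 2) ^ k ≤
      (((Fintype.piFinset fun _ : Fin k => S).filter fun f =>
        Function.Injective fun i => (f i).2).card : ℝ) := by
    intro k
    induction k with
    | zero =>
      intro _
      rw [pow_zero]
      have : 0 < ((Fintype.piFinset fun _ : Fin 0 => S).filter fun f =>
        Function.Injective fun i => (f i).2).card := by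
        rw [Finset.card_pos]
        refine ⟨fun i => i.elim0, Finset.mem_filter.2 ⟨?_, ?_⟩⟩
        · rw [Fintype.mem_piFinset]
          intro i
          exact i.elim0
        · intro i
          exact i.elim0
      exact_mod_cast this
    | succ k ih =>
      intro hk
      have h1 := ih (by omega)
      have h2 := tul_step S k m hm
      have h3 : ((((Fintype.piFinset fun _ : Fin k => S).filter fun f =>
        Function.Injective fun i => (f i).2).card : ℕ) : ℝ) * ((S.card - k * m : ℕ) : ℝ) ≤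
        ((((Fintype.piFinset fun _ : Fin (k + 1) => S).filter fun f =>
        Function.Injective fun i => (f i).2).card : ℕ) : ℝ) := by exact_mod_cast h2
      have h4 : s / 2 ≤ ((S.card - k * m : ℕ) : ℝ) := by
        have h5 : (S.card : ℝ) - k * m ≤ ((S.card - k * m : ℕ) : ℝ) := by
          have := Nat.le_sub_iff_add_le' (n := S.card) (m := k * m) (k := S.card - k * m)
          have h6 : S.card ≤ (S.card - k * m) + k * m := by omega
          have h7 : (S.card : ℝ) ≤ ((S.card - k * m : ℕ) : ℝ) + ((k * m : ℕ) : ℝ) := by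
            exact_mod_cast h6
          push_cast at h7
          linarith
        have h8 : (k : ℝ) * m ≤ K * m := by
          refine mul_le_mul_of_nonneg_right ?_ (Nat.cast_nonneg m)
          exact_mod_cast (by omega : k ≤ K)
        linarith
      refine le_trans ?_ h3
      rw [pow_succ]
      exact mul_le_mul h1 h4 (by positivity) (by positivity)
  exact key K le_rfl

theorem pf_TUU : T_TUU := by
  intro x Q c W K f A hQ hQW hf hinj hA
  set M : ℕ := Q * ∏ i, (f i).2 ^ 2 with hM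
  have hMpos : 0 < M := Nat.mul_pos hQ (Finset.prod_pos fun i _ => pow_pos (hf i).1.1.pos 2)
  have hMx : M ≤ x := by
    refine le_trans (Nat.mul_le_mul_left Q ?_) hQW
    calc ∏ i, (f i).2 ^ 2 ≤ ∏ _i : Fin K, W ^ 2 :=
          Finset.prod_le_prod' fun i _ => Nat.pow_le_pow_left (hf i).2.1 2
      _ = W ^ (2 * K) := by
          rw [Finset.prod_const, Finset.card_univ, Fintype.card_fin, ← pow_mul]
  have hdvd : ∀ n ∈ A, ∀ n' ∈ A, (M : ℤ) ∣ (n' : ℤ) - n := by
    intro n hn n' hn'
    obtain ⟨-, h1, h2⟩ := hA n hn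
    obtain ⟨-, h1', h2'⟩ := hA n' hn'
    rw [hM, Nat.cast_mul, Nat.cast_prod]
    have d1 : (Q : ℤ) ∣ (n' : ℤ) - n := (Nat.modEq_iff_dvd).1 (h1.trans h1'.symm)
    have d2 : (∏ i, (((f i).2 ^ 2 : ℕ) : ℤ)) ∣ (n' : ℤ) - n := by
      refine Finset.prod_dvd_of_coprime ?_ ?_
      · intro i _ j _ hij
        rw [Function.onFun, Nat.isCoprime_iff_coprime]
        refine Nat.Coprime.pow 2 2 ((Nat.coprime_primes (hf i).1.1 (hf j).1.1).2 ?_)
        intro h
        exact hij (hinj h)
      · intro i _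
        have e1 := h2 i
        have e2 := h2' i
        unfold Kill at e1 e2
        have e3 : (((n : ℤ)) : ZMod ((f i).2 ^ 2)) = ((n' : ℤ) : ZMod ((f i).2 ^ 2)) := by
          push_cast
          rw [e1, e2]
        exact (ZMod.intCast_eq_intCast_iff_dvd_sub _ _ _).1 e3
    refine IsCoprime.mul_dvd ?_ d1 d2
    refine IsCoprime.prod_right fun i _ => ?_
    rw [Nat.isCoprime_iff_coprime]
    exact (hf i).2.2
  have hcard : A.card ≤ x / M + 1 := by
    have : A.card ≤ (Finset.range (x / M + 1)).card := by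
      refine Finset.card_le_card_of_injOn (fun n => n / M) ?_ ?_
      · intro n hn
        rw [Finset.mem_coe, Finset.mem_range]
        exact Nat.lt_succ_of_le (Nat.div_le_div_right (hA n hn).1)
      · intro n hn n' hn' h
        have h1 : n ≡ n' [MOD M] := (Nat.modEq_iff_dvd).2 (hdvd n hn n' hn')
        have h2 := Nat.div_add_mod n M
        have h3 := Nat.div_add_mod n' M
        have h4 : n / M = n' / M := h
        have h5 : n % M = n' % M := h1
        rw [← h2, ← h3, h4, h5]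
    rwa [Finset.card_range] at this
  have hMR : (0 : ℝ) < M := by exact_mod_cast hMpos
  have h1 : (A.card : ℝ) ≤ (x : ℝ) / M + 1 := by
    have h2 : (A.card : ℝ) ≤ ((x / M + 1 : ℕ) : ℝ) := by exact_mod_cast hcard
    have h3 : ((x / M : ℕ) : ℝ) ≤ (x : ℝ) / M := Nat.cast_div_le
    push_cast at h2
    linarith
  have h2 : 1 ≤ (x : ℝ) / M := (one_le_div hMR).2 (by exact_mod_cast hMx)
  have h3 : 2 * (x : ℝ) / Q * ∏ i, 1 / ((f i).2 : ℝ) ^ 2 = (x : ℝ) / M + x / M := by
    rw [hM, Nat.cast_mul, Nat.cast_prod]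
    push_cast
    rw [Finset.prod_div_distrib, Finset.prod_const_one]
    have hq : (Q : ℝ) ≠ 0 := by exact_mod_cast hQ.ne'
    have hp : (∏ i, ((f i).2 : ℝ) ^ 2) ≠ 0 := Finset.prod_ne_zero_iff.2 fun i _ =>
      pow_ne_zero 2 (by exact_mod_cast (hf i).1.1.ne_zero)
    field_simp
    ring
  rw [h3]
  linarith

theorem pf_TUP (hTUL : T_TUL) (hTUU : T_TUU) : T_TUP := by
  intro x Q c W Z K m s D G A S hZ hQ hQW hG hA hS hm hs hKs
  classical
  set E : Finset (Fin K → ℕ × ℕ) := (Fintype.piFinset fun _ : Fin K => D ×ˢ G).filter fun f =>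
      Function.Injective fun i => (f i).2 with hE
  set P : ℕ → (Fin K → ℕ × ℕ) → Prop := fun n f => ∀ i, Kill (f i).2 n (f i).1 with hP
  have h1 : (A.card : ℝ) * (s / 2) ^ K ≤ ∑ n ∈ A, ((E.filter fun f => P n f).card : ℝ) := by
    rw [← nsmul_eq_mul]
    refine Finset.card_nsmul_le_sum _ _ _ fun n hn => ?_
    refine (hTUL (S n) K m s (hm n hn) hKs (hs n hn)).trans ?_
    refine Nat.cast_le.2 (Finset.card_le_card ?_)
    intro f hf
    rw [Finset.mem_filter, Fintype.mem_piFinset] at hf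
    rw [Finset.mem_filter, hE, Finset.mem_filter, Fintype.mem_piFinset]
    refine ⟨⟨fun i => ?_, hf.2⟩, fun i => ?_⟩
    · obtain ⟨a1, a2, -⟩ := hS n hn (f i) (hf.1 i)
      exact Finset.mem_product.2 ⟨a1, a2⟩
    · exact (hS n hn (f i) (hf.1 i)).2.2
  have h2 : ∑ n ∈ A, ((E.filter fun f => P n f).card : ℝ) =
      ∑ f ∈ E, ((A.filter fun n => P n f).card : ℝ) := by
    have := Finset.sum_card_bipartiteAbove_eq_sum_card_bipartiteBelow (s := A) (t := E) P
    unfold Finset.bipartiteAbove Finset.bipartiteBelow at this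
    exact_mod_cast this
  have h3 : ∀ f ∈ E, ((A.filter fun n => P n f).card : ℝ) ≤
      2 * x / Q * ∏ i, 1 / ((f i).2 : ℝ) ^ 2 := by
    intro f hf
    rw [hE, Finset.mem_filter, Fintype.mem_piFinset] at hf
    refine hTUU x Q c W K f _ hQ hQW ?_ hf.2 ?_
    · intro i
      obtain ⟨a1, -, a3, a4⟩ := hG _ (Finset.mem_product.1 (hf.1 i)).2
      exact ⟨a1, a3, a4⟩
    · intro n hn
      rw [Finset.mem_filter] at hn
      exact ⟨(hA n hn.1).1, (hA n hn.1).2, hn.2⟩
  have h4 : ∑ f ∈ E, 2 * (x : ℝ) / Q * ∏ i, 1 / ((f i).2 : ℝ) ^ 2 ≤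
      2 * x / Q * ∑ f ∈ Fintype.piFinset fun _ : Fin K => D ×ˢ G,
        ∏ i, 1 / ((f i).2 : ℝ) ^ 2 := by
    rw [← Finset.mul_sum]
    refine mul_le_mul_of_nonneg_left ?_ (by positivity)
    refine Finset.sum_le_sum_of_subset_of_nonneg (Finset.filter_subset _ _) ?_
    intro f _ _
    exact Finset.prod_nonneg fun i _ => by positivity
  have h5 : ∑ f ∈ Fintype.piFinset fun _ : Fin K => D ×ˢ G, ∏ i, 1 / ((f i).2 : ℝ) ^ 2 =
      (∑ q ∈ D ×ˢ G, 1 / (q.2 : ℝ) ^ 2) ^ K := by
    have := Finset.prod_univ_sum (fun _ : Fin K => D ×ˢ G) (fun _ q => 1 / (q.2 : ℝ) ^ 2)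
    rw [← this, Finset.prod_const, Finset.card_univ, Fintype.card_fin]
  have h6 : ∑ q ∈ D ×ˢ G, 1 / (q.2 : ℝ) ^ 2 = (D.card : ℝ) * ∑ p ∈ G, 1 / (p : ℝ) ^ 2 := by
    rw [Finset.sum_product]
    simp only []
    rw [Finset.sum_const, nsmul_eq_mul]
  have h7 : ∑ p ∈ G, 1 / (p : ℝ) ^ 2 ≤ 1 / (Z : ℝ) := by
    by_cases hZW : Z ≤ W
    · have h8 : G ⊆ Finset.Ioc Z W := by
        intro p hp
        obtain ⟨-, a2, a3, -⟩ := hG p hp
        exact Finset.mem_Ioc.2 ⟨a2, a3⟩
      have h9 := sum_Ioc_inv_sq_le_sub (α := ℝ) (k := Z) (n := W) (by omega) hZW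
      have h10 : ∑ p ∈ G, 1 / (p : ℝ) ^ 2 ≤ ∑ p ∈ Finset.Ioc Z W, 1 / (p : ℝ) ^ 2 :=
        Finset.sum_le_sum_of_subset_of_nonneg h8 fun p _ _ => by positivity
      have h11 : ∑ p ∈ Finset.Ioc Z W, 1 / (p : ℝ) ^ 2 =
          ∑ p ∈ Finset.Ioc Z W, ((p : ℝ) ^ 2)⁻¹ :=
        Finset.sum_congr rfl fun p _ => one_div _
      have h12 : (0 : ℝ) ≤ (W : ℝ)⁻¹ := by positivity
      rw [one_div]
      linarith
    · have h8 : G = ∅ := by
        rw [Finset.eq_empty_iff_forall_notMem]
        intro p hp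
        obtain ⟨-, a2, a3, -⟩ := hG p hp
        omega
      rw [h8, Finset.sum_empty]
      positivity
  have h8 : (∑ q ∈ D ×ˢ G, 1 / (q.2 : ℝ) ^ 2) ^ K ≤ ((D.card : ℝ) * (1 / (Z : ℝ))) ^ K := by
    refine pow_le_pow_left₀ (Finset.sum_nonneg fun q _ => by positivity) ?_ K
    rw [h6]
    exact mul_le_mul_of_nonneg_left h7 (by positivity)
  calc (A.card : ℝ) * (s / 2) ^ K ≤ _ := h1
    _ = _ := h2
    _ ≤ _ := Finset.sum_le_sum h3
    _ ≤ _ := h4
    _ ≤ 2 * x / Q * ((D.card : ℝ) * (1 / (Z : ℝ))) ^ K := by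
        rw [h5]
        exact mul_le_mul_of_nonneg_left h8 (by positivity)
    _ = _ := by rw [mul_pow]; ring

end Pool.Agent.H50.SF
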