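import Pool.Agent.H3.SF.Targets
import Pool.Agent.H14.SQ.ORD
import Pool.Agent.H14.SQ.SEM
import Pool.Agent.H58.SQ.BB
import Pool.Agent.H48.SQ.PP
import Pool.Agent.H58.SQ.TD

/-!
Row W8 of the board spw_modules: the density of the exceptions.
-/

set_option autoImplicit false

namespace Pool.Agent.H50.SF

open Finset Filter Topology Pool.Agent.H3.SF Pool.Agent.H99.SQ

theorem odd_QQ (Y : ℕ) : Odd (QQ (FF Y)) := by
  unfold QQ
  refine Finset.prod_induction _ Odd (fun a b ha hb => ha.mul hb) odd_one ?_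
  intro p hp
  simp only [FF, Finset.mem_filter] at hp
  exact (hp.2.1.odd_of_ne_two hp.2.2).pow

theorem cov_congr (Y n n' : ℕ) (h : n ≡ n' [MOD QQ (FF Y)]) : Cov (FF Y) n ↔ Cov (FF Y) n' := by
  refine forall_congr' fun l => exists_congr fun p => and_congr_right fun hp => ?_
  exact Pool.Agent.H14.SQ.pf_SEM.2.1 p _ _ l
    (h.of_dvd (Finset.dvd_prod_of_mem (fun p => p ^ 2) hp))

open Classical in
theorem approx2 (Y : ℕ) (hY : 1 ≤ Y) :
    ∃ K : ℝ, 0 ≤ K ∧ ∀ x : ℕ, 1 ≤ x →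
      |(({n : ℕ | n ≤ x ∧ EE n} : Set ℕ).ncard : ℝ) / x -
        (((range (x + 1)).filter (fun n => Odd n ∧ Cov (FF Y) n)).card : ℝ) / x| ≤
        1 / Y + K / Real.sqrt x := by
  have h3 := Pool.Agent.H58.SQ.BB.pf_BB Pool.Agent.H14.SQ.pf_ORD Pool.Agent.H14.SQ.pf_SEM
    Pool.Agent.H48.SQ.pf_PP
  have s4 := Pool.Agent.H14.SQ.pf_SEM.2.2.2
  refine ⟨QQ (FF Y) + 2 ^ (2 * QQ (FF Y)) + 4, by positivity, ?_⟩
  intro x hx
  have hxr : (1 : ℝ) ≤ x := by exact_mod_cast hx
  have hx0 : (0 : ℝ) < x := by linarith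
  have hsq0 : 0 < Real.sqrt x := Real.sqrt_pos.2 hx0
  have hsq1 : 1 ≤ Real.sqrt x := Real.one_le_sqrt.2 hxr
  rw [Pool.Agent.H58.SQ.TD.ncard_le_eq]
  set S := (range (x + 1)).filter EE with hS
  set S1 := S.filter (fun n => Cov (FF Y) n) with hS1
  set S2 := S.filter (fun n => ¬ Cov (FF Y) n) with hS2
  set T := (range (x + 1)).filter (fun n => Odd n ∧ Cov (FF Y) n) with hT
  have hcard : S1.card + S2.card = S.card := Finset.card_filter_add_card_filter_not _
  have hb2 : (S2.card : ℝ) ≤ x / Y + QQ (FF Y) * Real.sqrt x + 2 ^ (2 * QQ (FF Y)) + 1 := by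
    refine h3 Y x S2 hY ?_
    intro n hn
    rw [hS2, Finset.mem_filter, hS, Finset.mem_filter, Finset.mem_range] at hn
    exact ⟨by omega, hn.1.2, hn.2⟩
  have hle1 : S1.card ≤ T.card := by
    refine Finset.card_le_card fun n hn => ?_
    rw [hS1, Finset.mem_filter, hS, Finset.mem_filter] at hn
    rw [hT, Finset.mem_filter]
    exact ⟨hn.1.1, hn.1.2.1, hn.2⟩
  have hle2 : T.card ≤ S1.card + 2 := by
    have hsub : T ⊆ S1 ∪ {0, 1} := by
      intro n hn
      rw [hT, Finset.mem_filter] at hn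
      rw [Finset.mem_union]
      by_cases h1 : 1 < n
      · left
        rw [hS1, Finset.mem_filter, hS, Finset.mem_filter]
        refine ⟨⟨hn.1, hn.2.1, h1, ?_⟩, hn.2.2⟩
        have : RR n = ∅ := by
          refine Set.eq_empty_iff_forall_notMem.2 fun l => ?_
          obtain ⟨p, hp, hk⟩ := hn.2.2 l
          simp only [FF, Finset.mem_filter] at hp
          exact s4 n l p hp.2 hk
        unfold rep
        rw [this, Set.ncard_empty]
      · right
        simp only [Finset.mem_insert, Finset.mem_singleton]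
        omega
    calc T.card ≤ (S1 ∪ {0, 1}).card := Finset.card_le_card hsub
      _ ≤ S1.card + ({0, 1} : Finset ℕ).card := Finset.card_union_le _ _
      _ ≤ S1.card + 2 := Nat.add_le_add_left Finset.card_le_two _
  have r1 : (S1.card : ℝ) + S2.card = S.card := by exact_mod_cast hcard
  have r2 : (S1.card : ℝ) ≤ T.card := by exact_mod_cast hle1
  have r3 : (T.card : ℝ) ≤ S1.card + 2 := by exact_mod_cast hle2
  have r4 : (0 : ℝ) ≤ S2.card := Nat.cast_nonneg _
  have hQr : (0 : ℝ) ≤ QQ (FF Y) := Nat.cast_nonneg _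
  have hpw : (0 : ℝ) ≤ 2 ^ (2 * QQ (FF Y)) := by positivity
  have hYr : (0 : ℝ) < Y := by exact_mod_cast hY
  have hmain : |(S.card : ℝ) - T.card| ≤ x / Y + (QQ (FF Y) + 2 ^ (2 * QQ (FF Y)) +
      4) * Real.sqrt x := by
    have k1 : (2 ^ (2 * QQ (FF Y)) : ℝ) ≤ 2 ^ (2 * QQ (FF Y)) * Real.sqrt x :=
      le_mul_of_one_le_right hpw hsq1
    have k3 : (0 : ℝ) ≤ x / Y := by positivity
    have k4 : (0 : ℝ) ≤ QQ (FF Y) * Real.sqrt x := by positivity
    rw [abs_le]
    constructor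
    · nlinarith
    · nlinarith
  have e5 : (S.card : ℝ) / x - T.card / x = ((S.card : ℝ) - T.card) / x := by ring
  rw [e5, abs_div, abs_of_pos hx0, div_le_iff₀ hx0]
  refine hmain.trans (le_of_eq ?_)
  have e6 : Real.sqrt x * Real.sqrt x = x := Real.mul_self_sqrt hx0.le
  have e7 : (x : ℝ) / Real.sqrt x = Real.sqrt x := by
    rw [div_eq_iff hsq0.ne', e6]
  generalize (QQ (FF Y) + 2 ^ (2 * QQ (FF Y)) + 4 : ℝ) = K
  have e8 : K / Real.sqrt x * x = K * (x / Real.sqrt x) := by ring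
  rw [add_mul (1 / (Y : ℝ)), e8, e7]
  ring

theorem pf_W8 (hW1 : T_W1) (hW7 : T_W7) : T_W8 := by
  classical
  unfold T_W8
  rw [Metric.tendsto_atTop]
  intro ε hε
  set P : ℝ := (PM {ω | Dd ω = 0}).toReal with hP
  unfold T_W7 at hW7
  rw [← hP] at hW7
  rw [Metric.tendsto_atTop] at hW7
  obtain ⟨Y1, hY1⟩ := hW7 (ε / 4) (by linarith)
  obtain ⟨Y2, hY2⟩ := exists_nat_gt (4 / ε)
  set Y : ℕ := Y1 + Y2 + 1 with hY
  have hYpos : (0 : ℝ) < Y := by rw [hY]; positivity
  have hYε : 1 / (Y : ℝ) < ε / 4 := by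
    have h1 : 4 / ε < Y := by
      refine lt_trans hY2 ?_
      rw [hY]
      push_cast
      have : (0 : ℝ) ≤ Y1 := Nat.cast_nonneg _
      linarith
    rw [div_lt_iff₀ hYpos]
    rw [div_lt_iff₀ hε] at h1
    linarith
  have hcY := hY1 Y (by omega)
  rw [Real.dist_eq] at hcY
  set cY : ℝ := (({a : ℕ | a < QQ (FF Y) ∧ Cov (FF Y) a}.ncard : ℝ)) / QQ (FF Y) with hcYd
  obtain ⟨K, hK0, hK⟩ := approx2 Y (by omega)
  -- the average
  set h : ℕ → ℝ := fun n => if Cov (FF Y) n then 1 else 0 with hh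
  have hper : ∀ n, h (n + QQ (FF Y)) = h n := by
    intro n
    have h1 : n + QQ (FF Y) ≡ n [MOD QQ (FF Y)] := by
      have : n + QQ (FF Y) ≡ n + 0 [MOD QQ (FF Y)] :=
        Nat.ModEq.add_left n ((Nat.modEq_zero_iff_dvd).2 dvd_rfl)
      simpa using this
    have h2 := cov_congr Y _ _ h1
    rw [hh]
    simp only [h2]
  have hlim := hW1 (QQ (FF Y)) h (odd_QQ Y) hper
  have hsumQ : ∑ a ∈ range (QQ (FF Y)), h a =
      ({a : ℕ | a < QQ (FF Y) ∧ Cov (FF Y) a}.ncard : ℝ) := by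
    have e : {a : ℕ | a < QQ (FF Y) ∧ Cov (FF Y) a} =
        (((range (QQ (FF Y))).filter (fun a => Cov (FF Y) a) : Finset ℕ) : Set ℕ) := by
      ext n
      simp only [Set.mem_ofPred_eq, Finset.coe_filter, Finset.mem_range]
    rw [e, Set.ncard_coe_finset, hh, Finset.sum_ite, Finset.sum_const, Finset.sum_const_zero,
      add_zero, nsmul_eq_mul, mul_one]
  rw [hsumQ, ← hcYd, Metric.tendsto_atTop] at hlim
  obtain ⟨X1, hX1⟩ := hlim (ε / 2) (by linarith)
  have hlim2 : Tendsto (fun x : ℕ => K / Real.sqrt x) atTop (𝓝 0) :=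
      Tendsto.div_atTop tendsto_const_nhds
        (Real.tendsto_sqrt_atTop.comp tendsto_natCast_atTop_atTop)
  obtain ⟨X2, hX2⟩ := Filter.eventually_atTop.1 (hlim2.eventually (gt_mem_nhds (by positivity :
      (0 : ℝ) < ε / 4)))
  refine ⟨X1 + X2 + 1, ?_⟩
  intro x hx
  rw [Real.dist_eq]
  have a1 := hK x (by omega)
  have a2 := hX1 x (by omega)
  have a3 := hX2 x (by omega)
  rw [Real.dist_eq] at a2
  have hx0 : (0 : ℝ) < x := by exact_mod_cast (by omega : 0 < x)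
  have hsumx : ∑ n ∈ (range (x + 1)).filter Odd, h n =
      (((range (x + 1)).filter (fun n => Odd n ∧ Cov (FF Y) n)).card : ℝ) := by
    rw [hh, Finset.sum_ite, Finset.sum_const, Finset.sum_const_zero, add_zero, nsmul_eq_mul,
      mul_one, Finset.filter_filter]
  rw [hsumx] at a2
  set T : ℝ := (((range (x + 1)).filter (fun n => Odd n ∧ Cov (FF Y) n)).card : ℝ) with hT
  have e1 : T / ((x : ℝ) / 2) = 2 * (T / x) := by
    field_simp
  rw [e1] at a2
  have b1 := abs_le.1 a1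
  have b2 := abs_lt.1 a2
  have b3 := abs_lt.1 hcY
  rw [abs_lt]
  constructor
  · linarith
  · linarith

end Pool.Agent.H50.SF
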