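import Pool.Agent.H3.SF.Targets
import Pool.Agent.H58.SQ.BB

/-!
Row W5 of the board spw_modules: the limit law.
-/

set_option autoImplicit false

namespace Pool.Agent.H50.SF.LL

open Finset Filter Topology Pool.Agent.H3.SF Pool.Agent.H99.SQ MeasureTheory

theorem odd_QQ (Y : ℕ) : Odd (QQ (FF Y)) := by
  unfold QQ
  refine Finset.prod_induction _ Odd (fun a b ha hb => ha.mul hb) odd_one ?_
  intro p hp
  simp only [FF, Finset.mem_filter] at hp
  exact (hp.2.1.odd_of_ne_two hp.2.2).pow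

theorem rep_le (n : ℕ) (hn : 1 ≤ n) : rep n ≤ Nat.log 2 n + 1 := by
  unfold rep
  have h1 : RR n ⊆ ((Finset.range (Nat.log 2 n + 1) : Finset ℕ) : Set ℕ) := by
    rintro l ⟨hl, -⟩
    rw [Finset.mem_coe, Finset.mem_range]
    exact Nat.lt_succ_of_le (Nat.le_log_of_pow_le (by norm_num) hl.le)
  have h2 := Set.ncard_le_ncard h1 (Finset.finite_toSet _)
  rwa [Set.ncard_coe_finset, Finset.card_range] at h2

theorem ratio_mem (n : ℕ) (hn : Odd n) :
    (rep n : ℝ) / (Real.log n / Real.log 2) ∈ Set.Icc (0 : ℝ) 4 := by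
  have hn1 : 1 ≤ n := hn.pos
  have hl2 : 0 < Real.log 2 := Real.log_pos (by norm_num)
  have hl : 0 ≤ Real.log n := Real.log_natCast_nonneg n
  refine ⟨by positivity, ?_⟩
  by_cases h1 : n = 1
  · rw [h1, Nat.cast_one, Real.log_one, zero_div, div_zero]
    norm_num
  · have h2 : 2 ≤ n := by omega
    have h2R : (2 : ℝ) ≤ n := by exact_mod_cast h2
    have h3 : Real.log 2 ≤ Real.log n := Real.log_le_log (by norm_num) h2R
    have h4 : 1 ≤ Real.log n / Real.log 2 := (one_le_div hl2).2 h3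
    rw [div_le_iff₀ (by linarith)]
    have h5 : (rep n : ℝ) ≤ (Nat.log 2 n : ℝ) + 1 := by exact_mod_cast rep_le n hn1
    have h6 : (Nat.log 2 n : ℝ) ≤ Real.log n / Real.log 2 := by
      rw [le_div_iff₀ hl2, ← Real.log_pow]
      refine Real.log_le_log (by positivity) ?_
      exact_mod_cast Nat.pow_log_le_self 2 (by omega)
    linarith

theorem unif (g : ℝ → ℝ) (hg : Continuous g) (η : ℝ) (hη : 0 < η) :
    ∃ B : ℝ, 0 ≤ B ∧ ∀ a ∈ Set.Icc (0 : ℝ) 4, ∀ b ∈ Set.Icc (0 : ℝ) 4,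
      |g a - g b| ≤ η + B * |a - b| := by
  have hK : IsCompact (Set.Icc (0 : ℝ) 4) := isCompact_Icc
  obtain ⟨G, hG⟩ := hK.exists_bound_of_continuousOn hg.continuousOn
  have huc := hK.uniformContinuousOn_of_continuous hg.continuousOn
  rw [Metric.uniformContinuousOn_iff] at huc
  obtain ⟨δ, hδ, hd⟩ := huc η hη
  have hG0 : 0 ≤ G := (norm_nonneg _).trans (hG 0 ⟨le_rfl, by norm_num⟩)
  refine ⟨2 * G / δ, by positivity, ?_⟩
  intro a ha b hb
  by_cases h : dist a b < δ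
  · have h1 := (hd a ha b hb h).le
    rw [Real.dist_eq] at h1
    have h2 : 0 ≤ 2 * G / δ * |a - b| := by positivity
    linarith
  · push Not at h
    rw [Real.dist_eq] at h
    have h1 := hG a ha
    have h2 := hG b hb
    rw [Real.norm_eq_abs] at h1 h2
    have h3 : |g a - g b| ≤ 2 * G := by
      have := abs_sub (g a) (g b)
      linarith
    have h4 : 2 * G ≤ 2 * G / δ * |a - b| := by
      rw [div_mul_eq_mul_div, le_div_iff₀ hδ]
      exact mul_le_mul_of_nonneg_left h (by positivity)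
    linarith

theorem pf_W5 (hUUF : T_UUF) (hW1 : T_W1) (hW2 : T_W2) (hW3 : T_W3) (hW4 : T_W4) : T_W5 := by
  intro g hg
  rw [Metric.tendsto_atTop]
  intro ε hε
  obtain ⟨B, hB0, hB⟩ := unif g hg (ε / 16) (by linarith)
  have hg4 := hW4.2.2.2.2.2 g hg
  rw [Metric.tendsto_atTop] at hg4
  obtain ⟨Y1, hY1⟩ := hg4 (ε / 4) (by linarith)
  obtain ⟨Y2, hY2⟩ := exists_nat_gt (40 * B / ε)
  set Y : ℕ := Y1 + Y2 + 1 with hY
  have hYpos : (0 : ℝ) < Y := by rw [hY]; positivity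
  have hYε : 10 * B / Y ≤ ε / 4 := by
    have h1 : 40 * B / ε ≤ Y := by
      refine hY2.le.trans ?_
      rw [hY]
      push_cast
      have : (0 : ℝ) ≤ Y1 := Nat.cast_nonneg _
      linarith
    rw [div_le_iff₀ hYpos]
    rw [div_le_iff₀ hε] at h1
    linarith
  have hcY := hY1 Y (by omega)
  rw [Real.dist_eq] at hcY
  have hOP : ∀ p ∈ FF Y, OP p := fun p hp => Pool.Agent.H58.SQ.BB.OP_of_mem hp
  have hper : ∀ n, g (UU (FF Y) (n + QQ (FF Y))) = g (UU (FF Y) n) := by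
    intro n
    have h1 : n + QQ (FF Y) ≡ n [MOD QQ (FF Y)] := by
      have : n + QQ (FF Y) ≡ n + 0 [MOD QQ (FF Y)] :=
        Nat.ModEq.add_left n ((Nat.modEq_zero_iff_dvd).2 dvd_rfl)
      simpa using this
    rw [(hUUF (FF Y) (n + QQ (FF Y)) hOP).2.2.1 n h1]
  have hlim := hW1 (QQ (FF Y)) (fun n => g (UU (FF Y) n)) (odd_QQ Y) hper
  have hw2 := hW2 Y Y (fun a _ => g a) le_rfl
  rw [← hw2, Metric.tendsto_atTop] at hlim
  obtain ⟨X1, hX1⟩ := hlim (ε / 4) (by linarith)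
  obtain ⟨X3, hX3⟩ := Filter.eventually_atTop.1 (hW3 Y (by omega))
  refine ⟨X1 + X3 + 1, ?_⟩
  intro x hx
  have a1 := hX1 x (by omega)
  have a2 := hX3 x (by omega)
  rw [Real.dist_eq] at a1 ⊢
  have hx0 : (0 : ℝ) < x := by exact_mod_cast (by omega : 0 < x)
  set O : Finset ℕ := (range (x + 1)).filter Odd with hO
  have hOcard : (O.card : ℝ) ≤ x := by
    have h1 : O ⊆ Finset.Ioc 0 x := by
      intro n hn
      rw [hO, Finset.mem_filter, Finset.mem_range] at hn
      rw [Finset.mem_Ioc]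
      exact ⟨hn.2.pos, by omega⟩
    have h2 := Finset.card_le_card h1
    rw [Nat.card_Ioc, Nat.sub_zero] at h2
    exact_mod_cast h2
  have hdiff : |(∑ n ∈ O, g ((rep n : ℝ) / (Real.log n / Real.log 2))) -
      ∑ n ∈ O, g (UU (FF Y) n)| ≤ ε / 16 * x + B * (5 * x / Y) := by
    rw [← Finset.sum_sub_distrib]
    refine (Finset.abs_sum_le_sum_abs _ _).trans ?_
    calc ∑ n ∈ O, |g ((rep n : ℝ) / (Real.log n / Real.log 2)) - g (UU (FF Y) n)|
        ≤ ∑ n ∈ O, (ε / 16 + B * |(rep n : ℝ) / (Real.log n / Real.log 2) - UU (FF Y) n|) := by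
          refine Finset.sum_le_sum fun n hn => ?_
          refine hB _ (ratio_mem n (Finset.mem_filter.1 hn).2) _ ?_
          obtain ⟨u1, u2⟩ := (hUUF (FF Y) n hOP).1
          exact ⟨u1, by linarith⟩
      _ = ε / 16 * O.card + B * ∑ n ∈ O, |(rep n : ℝ) / (Real.log n / Real.log 2) -
          UU (FF Y) n| := by
          rw [Finset.sum_add_distrib, Finset.sum_const, nsmul_eq_mul, Finset.mul_sum]
          ring
      _ ≤ ε / 16 * x + B * (5 * x / Y) := by
          refine add_le_add (mul_le_mul_of_nonneg_left hOcard (by linarith)) ?_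
          exact mul_le_mul_of_nonneg_left a2 hB0
  have hdiff2 : |(∑ n ∈ O, g ((rep n : ℝ) / (Real.log n / Real.log 2))) / ((x : ℝ) / 2) -
      (∑ n ∈ O, g (UU (FF Y) n)) / ((x : ℝ) / 2)| ≤ ε / 8 + 10 * B / Y := by
    rw [← sub_div, abs_div, abs_of_pos (show (0 : ℝ) < (x : ℝ) / 2 by linarith),
      div_le_iff₀ (by linarith)]
    refine hdiff.trans (le_of_eq ?_)
    field_simp
    ring
  have b1 := abs_le.1 hdiff2
  have b2 := abs_lt.1 a1
  have b3 := abs_lt.1 hcY
  rw [abs_lt]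
  constructor
  · linarith
  · linarith

end Pool.Agent.H50.SF.LL
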